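import Pool.Agent.helper48.PR.SpecC

set_option autoImplicit false

namespace Pool.Agent.PR

open Matrix

theorem C4b_exp_nsmul {n : ℕ} {F : Type} [Field F] [CharZero F] (A : Matrix (Fin n) (Fin n) F)
    (hA : IsNilpotent A) (k : ℕ) : IsNilpotent.exp (k • A) = IsNilpotent.exp A ^ k := by
  induction k with
  | zero => rw [zero_smul, pow_zero, IsNilpotent.exp_zero]
  | succ k ih =>
    rw [succ_nsmul, pow_succ, ← ih]
    exact IsNilpotent.exp_add_of_commute (Commute.smul_left (Commute.refl A) k) (hA.smul k) hA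

theorem C4b (h2 : C2_stmt) (h3 : C3_stmt) (h4a : C4a_stmt) : C4b_stmt := by
  intro n hn F _ _ r
  obtain ⟨lg, hlg, -⟩ := h2 n F
  set K : ℤ := (n.factorial : ℤ) with hK
  set k : F := (n.factorial : F) with hk
  have hk0 : k ≠ 0 := by
    rw [hk]; exact_mod_cast n.factorial_ne_zero
  -- the logarithms
  have hU : ∀ (i j : Fin n) (h : i ≠ j), IsNilpotent (lg (r (el i j h K))) ∧
      IsNilpotent.exp (lg (r (el i j h K))) = r (el i j h K) ∧
      ∀ X, X * r (el i j h K) = r (el i j h K) * X →
        X * lg (r (el i j h K)) = lg (r (el i j h K)) * X :=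
    fun i j h => hlg _ (h4a n hn F r i j h)
  -- commuting
  have hcomm : ∀ (i j l m : Fin n) (h : i ≠ j) (h' : l ≠ m), j ≠ l → i ≠ m →
      lg (r (el i j h K)) * lg (r (el l m h' K)) = lg (r (el l m h' K)) * lg (r (el i j h K)) := by
    intro i j l m h h' hjl him
    have e1 : r (el i j h K) * r (el l m h' K) = r (el l m h' K) * r (el i j h K) := by
      rw [← map_mul, ← map_mul, el_comm h h' hjl him]
    have e2 := (hU i j h).2.2 _ e1.symm
    exact (hU l m h').2.2 _ e2.symm
  let M : Fin n → Fin n → Matrix (Fin n) (Fin n) F :=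
    fun i j => if h : i ≠ j then k⁻¹ • lg (r (el i j h K)) else 0
  have hM : ∀ (i j : Fin n) (h : i ≠ j), M i j = k⁻¹ • lg (r (el i j h K)) := by
    intro i j h
    simp only [M, dif_pos h]
  refine ⟨M, ⟨?_, ?_⟩, ?_⟩
  · intro i j l hij hjl hil
    rw [hM i j hij, hM j l hjl, hM i l hil]
    have hC : IsNilpotent (n.factorial • lg (r (el i l hil K))) := (hU i l hil).1.smul _
    have key := h3 n F (lg (r (el i j hij K))) (lg (r (el j l hjl K)))
      (n.factorial • lg (r (el i l hil K))) (hU i j hij).1 (hU j l hjl).1 hC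
      (by
        rw [smul_mul_assoc, mul_smul_comm, hcomm i l i j hil hij hil.symm hij])
      (by
        rw [smul_mul_assoc, mul_smul_comm, hcomm i l j l hil hjl hjl.symm hil])
      (by
        rw [C4b_exp_nsmul _ (hU i l hil).1, (hU i j hij).2.1, (hU j l hjl).2.1,
          (hU i l hil).2.1, ← map_pow, el_pow, ← map_mul, ← map_mul, ← map_mul,
          el_commutator hij hjl hil])
    rw [smul_mul_smul_comm, smul_mul_smul_comm, ← smul_sub, key, ← Nat.cast_smul_eq_nsmul F,
      smul_smul]
    congr 1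
    rw [← hk]
    field_simp
  · intro i j l m hij hlm hjl him
    rw [hM i j hij, hM l m hlm]
    rw [smul_mul_smul_comm, smul_mul_smul_comm, hcomm i j l m hij hlm hjl him]
  · intro i j h
    rw [hM i j h]
    refine ⟨(hU i j h).1.smul _, ?_⟩
    rw [smul_smul, mul_inv_cancel₀ hk0, one_smul, (hU i j h).2.1]

end Pool.Agent.PR
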